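import Pool.Agent.helper79.WB.SpecII

/-!
# Project wb, Part II, row DIV
-/

set_option autoImplicit false

namespace Pool.Agent.WB

open MvPolynomial

theorem DIV_congr (Δ : ℤ) (a b : V3) (h : ∀ i, Δ ∣ a i - b i) (p : MvPolynomial (Fin 3) ℤ) :
    Δ ∣ eval a p - eval b p := by
  induction p using MvPolynomial.induction_on with
  | C r => simp
  | add p q hp hq =>
    rw [map_add, map_add]
    have : eval a p + eval a q - (eval b p + eval b q) =
        (eval a p - eval b p) + (eval a q - eval b q) := by ring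
    rw [this]
    exact dvd_add hp hq
  | mul_X p i hp =>
    rw [map_mul, map_mul, eval_X, eval_X]
    have : eval a p * a i - eval b p * b i =
        (eval a p - eval b p) * a i + eval b p * (a i - b i) := by ring
    rw [this]
    exact dvd_add (Dvd.dvd.mul_right hp _) (Dvd.dvd.mul_left (h i) _)

theorem DIV_scale (n : ℕ) (p : MvPolynomial (Fin 3) ℤ) (hp : p.IsHomogeneous n) (c : ℤ) (a : V3) :
    eval (fun i => c * a i) p = c ^ n * eval a p := by
  rw [eval_eq', eval_eq', Finset.mul_sum]
  refine Finset.sum_congr rfl fun d hd => ?_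
  have h1 : d.degree = n := by
    have h := hp (mem_support_iff.1 hd)
    rw [Finsupp.degree_eq_weight_one]
    exact h
  have h2 : ∏ i, (c * a i) ^ d i = c ^ n * ∏ i, a i ^ d i := by
    simp_rw [mul_pow]
    rw [Finset.prod_mul_distrib, Finset.prod_pow_eq_pow_sum, ← Finsupp.degree_eq_sum, h1]
  rw [h2]
  ring

/-- **DIV**. -/
theorem DIV : DIV_stmt := by
  intro n p ζ η u v hp hcop hζ hη _ h0
  unfold onL at hζ hη
  have key : ∀ j : Fin 3, j = 0 ∨ j = 1 → dt ζ η ∣ ζ j ^ n * eval η p := by
    intro j hj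
    have h1 : ∀ i, dt ζ η ∣ ζ j * η i - η j * ζ i := by
      intro i
      unfold dt
      rcases hj with rfl | rfl
      · fin_cases i
        · exact ⟨0, by simp; ring⟩
        · exact ⟨1, by simp⟩
        · refine ⟨u, ?_⟩
          simp only [Fin.reduceFinMk]
          rw [← hζ, ← hη]
          ring
      · fin_cases i
        · exact ⟨-1, by simp; ring⟩
        · exact ⟨0, by simp; ring⟩
        · refine ⟨v, ?_⟩
          simp only [Fin.reduceFinMk]
          rw [← hζ, ← hη]
          ring
    have h2 := DIV_congr (dt ζ η) (fun i => ζ j * η i) (fun i => η j * ζ i) h1 p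
    rw [DIV_scale n p hp, DIV_scale n p hp, h0, mul_zero, sub_zero] at h2
    exact h2
  have h1 := key 0 (Or.inl rfl)
  have h2 := key 1 (Or.inr rfl)
  obtain ⟨s, t, hst⟩ := (IsCoprime.pow (m := n) (n := n) hcop)
  have h3 : eval η p = s * (ζ 0 ^ n * eval η p) + t * (ζ 1 ^ n * eval η p) := by
    linear_combination (-(eval η p)) * hst
  rw [h3]
  exact dvd_add (Dvd.dvd.mul_left h1 _) (Dvd.dvd.mul_left h2 _)

end Pool.Agent.WB
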