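import Pool.Agent.helper78.WB.SpecIII

/-!
# Project wb, Part III, row LZ
-/

set_option autoImplicit false

namespace Pool.Agent.WB

open MvPolynomial

theorem LZ_zero {R : Type} [CommRing R] (m : ℕ) : ordGE m (0 : MvPolynomial (Fin 2) R) := by
  intro μ _
  exact coeff_zero μ

theorem LZ_sum {K : Type} [Field K] (h2 : ORD_stmt) (m : ℕ) {ι : Type} (s : Finset ι)
    (F : ι → MvPolynomial (Fin 2) K) (hF : ∀ i ∈ s, ordGE m (F i)) : ordGE m (∑ i ∈ s, F i) :=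
  Finset.sum_induction F (ordGE m) (fun a b ha hb => (h2 K m).1 a b ha hb) (LZ_zero m) hF

theorem LZ_one {K : Type} [Field K] (f : MvPolynomial (Fin 2) K) (h : coeff 0 f = 0) : ordGE 1 f := by
  intro μ hμ
  have h0 : μ.degree = 0 := by omega
  rw [Finsupp.degree_eq_zero_iff] at h0
  rw [h0]
  exact h

theorem LZ_neg {K : Type} [Field K] (h2 : ORD_stmt) (m : ℕ) (f : MvPolynomial (Fin 2) K)
    (h : ordGE m f) : ordGE m (-f) := by
  have := (h2 K m).2.1 f (-1) h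
  rwa [mul_neg_one] at this

/-- injectivity -/
theorem LZ_inj {K : Type} [Field K] (h2 : ORD_stmt) (h3 : LOCE_stmt) (f : MvPolynomial (Fin 3) K)
    (m k : ℕ) (hf0 : f ≠ 0) (hm : 1 ≤ m) (Z' : Finset (Fin 3 → K))
    (hZ : ∀ ζ ∈ Z', ∃ j : Fin 3, ζ j ≠ 0 ∧ ordGE m (loc j ζ f))
    (L : (Fin 3 → K) → MvPolynomial (Fin 3) K)
    (hL : ∀ ζ ∈ Z', (L ζ).IsHomogeneous k ∧
        eval ζ (L ζ) = 1 ∧ ∀ η ∈ Z', η ≠ ζ → eval η (L ζ) = 0)
    (g : MvPolynomial (Fin 3) K) (h : {x // x ∈ Z'} → MvPolynomial (Fin 3) K)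
    (hh : ∀ ζ, (h ζ).IsHomogeneous (m - 1))
    (heq : f * g + ∑ ζ : {x // x ∈ Z'}, (L ζ) ^ m * h ζ = 0) : g = 0 ∧ ∀ ζ, h ζ = 0 := by
  classical
  have hz : ∀ ζ, h ζ = 0 := by
    intro ζ₀
    obtain ⟨j, hj, hord⟩ := hZ ζ₀.1 ζ₀.2
    have h5 := congrArg (loc j ζ₀.1) heq
    rw [map_add, map_mul, map_sum, map_zero] at h5
    rw [← Finset.add_sum_erase _ _ (Finset.mem_univ ζ₀)] at h5
    have h6 : loc j ζ₀.1 ((L ζ₀.1) ^ m) * loc j ζ₀.1 (h ζ₀) =
        -(loc j ζ₀.1 f * loc j ζ₀.1 g) +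
          -(∑ x ∈ Finset.univ.erase ζ₀, loc j ζ₀.1 ((L x.1) ^ m * h x)) := by
      rw [← map_mul]
      linear_combination h5
    have h7 : ordGE m (loc j ζ₀.1 ((L ζ₀.1) ^ m) * loc j ζ₀.1 (h ζ₀)) := by
      rw [h6]
      refine (h2 K m).1 _ _ (LZ_neg h2 m _ ((h2 K m).2.1 _ _ hord)) (LZ_neg h2 m _ ?_)
      refine LZ_sum h2 m _ _ fun x hx => ?_
      rw [map_mul, map_pow]
      refine (h2 K m).2.1 _ _ ((h2 K m).2.2.1 _ (LZ_one _ ?_))
      rw [(h3 K j ζ₀.1).1]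
      refine (hL x.1 x.2).2.2 ζ₀.1 ζ₀.2 ?_
      intro hE
      exact Finset.ne_of_mem_erase hx (Subtype.ext hE.symm)
    have h8 : coeff 0 (loc j ζ₀.1 ((L ζ₀.1) ^ m)) ≠ 0 := by
      rw [(h3 K j ζ₀.1).1, map_pow, (hL ζ₀.1 ζ₀.2).2.1, one_pow]
      exact one_ne_zero
    have h9 := (h2 K m).2.2.2 _ _ h8 h7
    exact (h3 K j ζ₀.1).2 hj (h ζ₀) (m - 1) m (hh ζ₀) (by omega) h9
  refine ⟨?_, hz⟩
  simp only [hz, mul_zero, Finset.sum_const_zero, add_zero] at heq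
  exact (mul_eq_zero.1 heq).resolve_left hf0

/-- **LZ**. -/
theorem LZ (h1 : DIM3_stmt) (h2 : ORD_stmt) (h3 : LOCE_stmt) (h4 : DUAL_stmt) : LZ_stmt := by
  classical
  intro K _ f d k m hf hf0 hm hdk Z hZ hZ0
  obtain ⟨Z', hsub, hcard, L, hL⟩ := h4 K k Z hZ0
  have hT1 : d + (m * (k + 1) - 1 - d) = m * (k + 1) - 1 := by omega
  have hT2 : k * m + (m - 1) = m * (k + 1) - 1 := by
    have : m * (k + 1) = k * m + m := by ring
    omega
  let Φ : (homogeneousSubmodule (Fin 3) K (m * (k + 1) - 1 - d)) ×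
      ({x // x ∈ Z'} → homogeneousSubmodule (Fin 3) K (m - 1)) →ₗ[K]
      homogeneousSubmodule (Fin 3) K (m * (k + 1) - 1) :=
    { toFun := fun x => ⟨f * (x.1 : MvPolynomial (Fin 3) K) +
        ∑ ζ : {x // x ∈ Z'}, (L ζ) ^ m * (x.2 ζ : MvPolynomial (Fin 3) K), by
          rw [mem_homogeneousSubmodule]
          refine IsHomogeneous.add ?_ ?_
          · have := hf.mul ((mem_homogeneousSubmodule _ _).1 x.1.2)
            rwa [hT1] at this
          · refine IsHomogeneous.sum _ _ _ fun ζ _ => ?_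
            have := ((hL ζ.1 ζ.2).1.pow m).mul ((mem_homogeneousSubmodule _ _).1 (x.2 ζ).2)
            rwa [hT2] at this⟩
      map_add' := by
        intro x y
        apply Subtype.ext
        simp only [Prod.fst_add, Prod.snd_add, Pi.add_apply, Submodule.coe_add, mul_add,
          Finset.sum_add_distrib]
        ring
      map_smul' := by
        intro c x
        apply Subtype.ext
        simp only [Prod.smul_fst, Prod.smul_snd, Pi.smul_apply, Submodule.coe_smul, RingHom.id_apply,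
          mul_smul_comm, smul_add, Finset.smul_sum] }
  have hinj : Function.Injective Φ := by
    rw [injective_iff_map_eq_zero]
    intro x hx
    have h5 : f * (x.1 : MvPolynomial (Fin 3) K) +
        ∑ ζ : {x // x ∈ Z'}, (L ζ) ^ m * (x.2 ζ : MvPolynomial (Fin 3) K) = 0 :=
      congrArg Subtype.val hx
    obtain ⟨h6, h7⟩ := LZ_inj h2 h3 f m k hf0 hm Z' (fun ζ hζ => hZ ζ (hsub hζ)) L hL x.1
      (fun ζ => x.2 ζ) (fun ζ => (mem_homogeneousSubmodule _ _).1 (x.2 ζ).2) h5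
    refine Prod.ext (Subtype.ext h6) ?_
    funext ζ
    exact Subtype.ext (h7 ζ)
  have i1 := (h1.2 K (m * (k + 1) - 1)).1
  have i2 := (h1.2 K (m * (k + 1) - 1 - d)).1
  have i3 := (h1.2 K (m - 1)).1
  have hfin := LinearMap.finrank_le_finrank_of_injective hinj
  rw [Module.finrank_prod, Module.finrank_pi_fintype, Finset.sum_const, Finset.card_univ,
    Fintype.card_coe, hcard, (h1.2 K _).2.2, (h1.2 K _).2.2, (h1.2 K _).2.2, smul_eq_mul] at hfin
  have h5 : s3 (m - 1) = m * (m + 1) / 2 := by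
    unfold s3
    have h6 : m - 1 + 1 = m := by omega
    have h7 : m - 1 + 2 = m + 1 := by omega
    rw [h6, h7]
  rwa [h5] at hfin

end Pool.Agent.WB
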